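import Pool.Agent.W78.EG.Defs
import Pool.Agent.W125.EX.SLOWQ

/-!
Project EG (helper78), part SLQ: lower bounds for the weights and for the number of pairs in a
residue class; port of `Pool.Agent.W125.EX.SLOWQ` and `Pool.Agent.W571.EX.SPQ`.
-/

set_option autoImplicit false

namespace W885.EG

open Finset
open Pool.Agent.W125.EX (B card_B pow_lin)
open Pool.Agent.W78.EG

/-- the norm form -/
def nf (t c X Y : ℕ) : ℕ := X ^ 2 + t * X * Y + c * Y ^ 2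

/-- the root attached to a primitive pair, in a residue class -/
lemma root (t c q a X Y : ℕ) (hc : 1 ≤ c) (hq : 1 ≤ q) (hX : 1 ≤ X) (hY : 1 ≤ Y)
    (hXY : Nat.Coprime X Y)
    (hd : Nat.Coprime (nf t c X Y) q) : ∃ n : ℕ, 1 ≤ n ∧ n ≤ (nf t c X Y) * q ∧
      n ≡ a [MOD q] ∧ (nf t c X Y) ∣ n ^ 2 + t * n + c ∧
      ((nf t c X Y : ℕ) : ℤ) ∣ (X : ℤ) - n * Y := by
  obtain ⟨w, u, hb⟩ := Nat.isCoprime_iff_coprime.2 hXY
  have hdd0 : nf t c X Y = X ^ 2 + t * X * Y + c * Y ^ 2 := rfl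
  set d := nf t c X Y with hdd
  have hX2 : 1 ≤ X ^ 2 := Nat.one_le_pow _ _ hX
  have hY2 : 1 ≤ Y ^ 2 := Nat.one_le_pow _ _ hY
  have hdc : c < d := by
    rw [hdd0]
    have h1 : c * 1 ≤ c * Y ^ 2 := Nat.mul_le_mul_left _ hY2
    have h2 : 0 ≤ t * X * Y := Nat.zero_le _
    omega
  have hd2 : 2 ≤ d := by omega
  set ν : ℤ := u * X - w * t * X - w * c * Y with hν
  have h1 : ν ^ 2 + t * ν + c = (d : ℤ) * (u ^ 2 - t * u * w + c * w ^ 2) := by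
    rw [hν, hdd0]
    push_cast
    linear_combination (-(t * (u * X - w * t * X - w * c * Y) + c * (1 + (w * X + u * Y)))) * hb
  have h2 : (X : ℤ) - ν * Y = (d : ℤ) * w := by
    rw [hν, hdd0]
    push_cast
    linear_combination (-(X : ℤ)) * hb
  have hdpos : (0 : ℤ) < d := by exact_mod_cast (by omega : 0 < d)
  obtain ⟨ν', hν'⟩ : ∃ ν' : ℕ, (ν' : ℤ) = ν % d :=
    ⟨(ν % d).toNat, Int.toNat_of_nonneg (Int.emod_nonneg _ hdpos.ne')⟩
  have hlt := Nat.chineseRemainder_lt_mul hd ν' a (by omega) (by omega)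
  set n : ℕ := (Nat.chineseRemainder hd ν' a : ℕ) with hn
  have hn1 : n ≡ ν' [MOD d] := (Nat.chineseRemainder hd ν' a).2.1
  have hn2 : n ≡ a [MOD q] := (Nat.chineseRemainder hd ν' a).2.2
  have h3 : (d : ℤ) ∣ (n : ℤ) - ν := by
    have h4 : (d : ℤ) ∣ (n : ℤ) - ν' := Nat.modEq_iff_dvd.1 hn1.symm
    have h5 : (d : ℤ) ∣ (ν' : ℤ) - ν := by
      rw [hν']
      have := Int.emod_add_mul_ediv ν d
      exact ⟨-(ν / d), by linarith⟩
    have e : (n : ℤ) - ν = (n - ν') + (ν' - ν) := by ring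
    rw [e]
    exact h4.add h5
  have h6 : d ∣ n ^ 2 + t * n + c := by
    have h7 : (d : ℤ) ∣ (n : ℤ) ^ 2 + t * n + c := by
      have e : (n : ℤ) ^ 2 + t * n + c = (n - ν) * (n + ν + t) + (ν ^ 2 + t * ν + c) := by ring
      rw [e, h1]
      exact (h3.mul_right _).add (dvd_mul_right _ _)
    exact_mod_cast h7
  refine ⟨n, ?_, hlt.le, hn2, h6, ?_⟩
  · by_contra h
    have h8 : n = 0 := by omega
    rw [h8] at h6
    have := Nat.le_of_dvd (by simp; omega) h6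
    simp at this
    omega
  · have e : (X : ℤ) - n * Y = (X - ν * Y) - (n - ν) * Y := by ring
    rw [e, h2]
    exact (dvd_mul_right _ _).sub (h3.mul_right _)

/-- the pair is determined by the norm and the root -/
lemma inj (t c X Y X' Y' : ℕ) (n : ℤ) (hc : 1 ≤ c) (hX : 1 ≤ X) (hY : 1 ≤ Y) (hX' : 1 ≤ X')
    (hY' : 1 ≤ Y')
    (hXY : Nat.Coprime X Y) (hXY' : Nat.Coprime X' Y') (hd : nf t c X Y = nf t c X' Y')
    (h1 : ((nf t c X Y : ℕ) : ℤ) ∣ (X : ℤ) - n * Y)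
    (h2 : ((nf t c X' Y' : ℕ) : ℤ) ∣ (X' : ℤ) - n * Y') : X = X' ∧ Y = Y' := by
  rw [← hd] at h2
  have h3 : ((nf t c X Y : ℕ) : ℤ) ∣ (X : ℤ) * Y' - X' * Y := by
    have e : (X : ℤ) * Y' - X' * Y = (X - n * Y) * Y' - (X' - n * Y') * Y := by ring
    rw [e]
    exact (h1.mul_right _).sub (h2.mul_right _)
  have ed : ((nf t c X Y : ℕ) : ℤ) = X ^ 2 + t * X * Y + c * Y ^ 2 := by
    unfold nf
    push_cast
    rfl
  have ed' : ((nf t c X' Y' : ℕ) : ℤ) = X' ^ 2 + t * X' * Y' + c * Y' ^ 2 := by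
    unfold nf
    push_cast
    rfl
  have hXz : (1 : ℤ) ≤ X := by exact_mod_cast hX
  have hYz : (1 : ℤ) ≤ Y := by exact_mod_cast hY
  have hXz' : (1 : ℤ) ≤ X' := by exact_mod_cast hX'
  have hYz' : (1 : ℤ) ≤ Y' := by exact_mod_cast hY'
  have hcz : (1 : ℤ) ≤ c := by exact_mod_cast hc
  have htz : (0 : ℤ) ≤ t := by positivity
  have key : ∀ A B : ℤ, 1 ≤ A → 1 ≤ B → A ^ 2 < A ^ 2 + t * A * B + c * B ^ 2 ∧
      B ^ 2 < A ^ 2 + t * A * B + c * B ^ 2 := by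
    intro A B hA hB
    have h1 : 0 ≤ t * A * B := by positivity
    have h2 : 1 ≤ B ^ 2 := by nlinarith
    have h3 : 1 ≤ A ^ 2 := by nlinarith
    have h4 : B ^ 2 ≤ c * B ^ 2 := by nlinarith
    constructor <;> linarith
  obtain ⟨k1, k2⟩ := key X Y hXz hYz
  obtain ⟨k1', k2'⟩ := key X' Y' hXz' hYz'
  have hdZ : (X : ℤ) ^ 2 + t * X * Y + c * Y ^ 2 = X' ^ 2 + t * X' * Y' + c * Y' ^ 2 := by
    rw [← ed, ← ed', hd]
  have h4 : (X : ℤ) * Y' = X' * Y := by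
    obtain ⟨k, hk⟩ := h3
    rw [ed] at hk
    set dd : ℤ := (X : ℤ) ^ 2 + t * X * Y + c * Y ^ 2 with hdd
    rw [← hdZ] at k1' k2'
    have hlt1 : (X : ℤ) * Y' < dd := by nlinarith [sq_nonneg ((X : ℤ) - Y')]
    have hlt2 : (X' : ℤ) * Y < dd := by nlinarith [sq_nonneg ((X' : ℤ) - Y)]
    have hp1 : (0 : ℤ) < X * Y' := by positivity
    have hp2 : (0 : ℤ) < X' * Y := by positivity
    have hk0 : k = 0 := by
      by_contra hne
      rcases lt_or_gt_of_ne hne with h | h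
      · have : k ≤ -1 := by omega
        nlinarith
      · have : 1 ≤ k := by omega
        nlinarith
    rw [hk0, mul_zero] at hk
    linarith
  have h4' : X * Y' = X' * Y := by exact_mod_cast h4
  have h5 : X ∣ X' := hXY.dvd_of_dvd_mul_right (Dvd.intro _ h4')
  have h6 : X' ∣ X := hXY'.dvd_of_dvd_mul_right (Dvd.intro _ h4'.symm)
  have h7 : X = X' := Nat.dvd_antisymm h5 h6
  refine ⟨h7, ?_⟩
  rw [h7] at h4'
  exact (Nat.eq_of_mul_eq_mul_left (by omega) h4').symm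

lemma fv_nat (t c n : ℕ) : fv (t : ℤ) (c : ℤ) n = n ^ 2 + t * n + c := by
  unfold fv
  have : ((n : ℤ) ^ 2 + (t : ℤ) * n + c) = ((n ^ 2 + t * n + c : ℕ) : ℤ) := by push_cast; rfl
  rw [this, Int.toNat_natCast]

lemma fv_le (t c n d q : ℕ) (ht : t ≤ 1) (hcd : c ≤ d) (hd : 1 ≤ d) (hq : 1 ≤ q)
    (hn : n ≤ d * q) : n ^ 2 + t * n + c ≤ d * (3 * q ^ 2 * d) := by
  have h2 : n ^ 2 ≤ (d * q) ^ 2 := Nat.pow_le_pow_left hn 2
  have h3 : 1 ≤ d * q := Nat.mul_pos hd hq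
  have h4 : t * n ≤ (d * q) ^ 2 := by
    calc t * n ≤ 1 * (d * q) := Nat.mul_le_mul ht hn
      _ ≤ (d * q) * (d * q) := Nat.mul_le_mul_right _ h3
      _ = (d * q) ^ 2 := by ring
  have h5 : c ≤ (d * q) ^ 2 := by
    calc c ≤ d * 1 := by omega
      _ ≤ d * q := Nat.mul_le_mul_left _ hq
      _ = 1 * (d * q) := by ring
      _ ≤ (d * q) * (d * q) := Nat.mul_le_mul_right _ h3
      _ = (d * q) ^ 2 := by ring
  calc n ^ 2 + t * n + c ≤ (d * q) ^ 2 + (d * q) ^ 2 + (d * q) ^ 2 :=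
        Nat.add_le_add (Nat.add_le_add h2 h4) h5
    _ = d * (3 * q ^ 2 * d) := by ring

lemma nf_le (t c Q j x y : ℕ) (ht : t ≤ 1) (hQ1 : 1 ≤ Q) (h0 : 1 ≤ x) (h1 : x ≤ 2 ^ (j + 1))
    (h2 : y ≤ 2 ^ (j + 1)) :
    nf t c (1 + Q * x) (Q * y) ≤ (16 * (2 + c) * Q ^ 2) * 4 ^ j := by
  have h3 : 1 + Q * x ≤ 2 * (Q * 2 ^ (j + 1)) := by
    have h5 : Q * x ≤ Q * 2 ^ (j + 1) := Nat.mul_le_mul_left _ h1
    have h6 : 1 * 1 ≤ Q * x := Nat.mul_le_mul hQ1 h0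
    omega
  have h4 : Q * y ≤ 2 * (Q * 2 ^ (j + 1)) := by
    have := Nat.mul_le_mul_left Q h2
    omega
  set Z := 2 * (Q * 2 ^ (j + 1)) with hZ
  have e : (16 * (2 + c) * Q ^ 2) * 4 ^ j = Z ^ 2 + 1 * Z * Z + c * Z ^ 2 := by
    rw [hZ, show (4 : ℕ) = 2 ^ 2 by norm_num, ← pow_mul]
    ring
  rw [e]
  unfold nf
  exact Nat.add_le_add (Nat.add_le_add (Nat.pow_le_pow_left h3 2)
    (Nat.mul_le_mul (Nat.mul_le_mul ht h3) h4)) (Nat.mul_le_mul_left _ (Nat.pow_le_pow_left h4 2))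

lemma nf_cop (t c q x y : ℕ) : Nat.Coprime (nf t c (1 + 2 * q * x) (2 * q * y)) q := by
  have e : nf t c (1 + 2 * q * x) (2 * q * y) =
      1 + q * (4 * x + 4 * q * x ^ 2 + 2 * t * y + 4 * t * q * x * y + 4 * c * q * y ^ 2) := by
    unfold nf
    ring
  rw [e]
  exact (Nat.coprime_add_mul_left_left 1 q _).2 (Nat.coprime_one_left q)

lemma nf_pos (t c X Y : ℕ) (hX : 1 ≤ X) : 1 ≤ nf t c X Y := by
  unfold nf
  have : 1 ≤ X ^ 2 := Nat.one_le_pow _ _ hX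
  omega

lemma c_le_nf (t c X Y : ℕ) (hY : 1 ≤ Y) : c ≤ nf t c X Y := by
  unfold nf
  have h1 : c * 1 ≤ c * Y ^ 2 := Nat.mul_le_mul_left _ (Nat.one_le_pow _ _ hY)
  omega

theorem slowq_nat (t c : ℕ) (ht : t ≤ 1) (hc : 1 ≤ c) : S_SLOWQ (t : ℤ) (c : ℤ) := by
  classical
  intro q a hq
  set Q := 2 * q with hQ
  have hQ1 : 1 ≤ Q := by omega
  set K := 16 * (2 + c) * Q ^ 2 with hK
  have hK1 : 1 ≤ K := by
    have : 1 ≤ Q ^ 2 := Nat.one_le_pow _ _ hQ1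
    exact Nat.mul_pos (by omega) this
  have hqK : 0 < q * K := Nat.mul_pos hq hK1
  have hqR : (1 : ℝ) ≤ q := by exact_mod_cast hq
  have hKR : (1 : ℝ) ≤ K := by exact_mod_cast hK1
  have hl4 : 0 < Real.log 4 := Real.log_pos (by norm_num)
  refine ⟨1 / (12 * q ^ 2 * K * Real.log 4), by positivity, ?_⟩
  obtain ⟨N₀, hN₀⟩ := exists_nat_ge (Real.exp (12 * Real.log 4 + 2 * Real.log (q * K : ℕ)))
  refine ⟨N₀ + 1, ?_⟩
  intro N hN
  have hNR : Real.exp (12 * Real.log 4 + 2 * Real.log (q * K : ℕ)) ≤ N :=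
    hN₀.trans (by exact_mod_cast (by omega : N₀ ≤ N))
  have hNpos : (0 : ℝ) < N := (Real.exp_pos _).trans_le hNR
  have hlogN : 12 * Real.log 4 + 2 * Real.log (q * K : ℕ) ≤ Real.log N := by
    have := Real.log_le_log (Real.exp_pos _) hNR
    rwa [Real.log_exp] at this
  set J := Nat.log 4 (N / (q * K)) with hJ
  -- the number of blocks
  have hJlow : Real.log N ≤ Real.log (q * K : ℕ) + (J + 1) * Real.log 4 := by
    have h1 : N / (q * K) < 4 ^ (J + 1) := Nat.lt_pow_succ_log_self (by norm_num) _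
    have h2 : N < 4 ^ (J + 1) * (q * K) := (Nat.div_lt_iff_lt_mul hqK).1 h1
    have h3 : (N : ℝ) ≤ (4 : ℝ) ^ (J + 1) * ((q * K : ℕ) : ℝ) := by exact_mod_cast h2.le
    have h4 := Real.log_le_log hNpos h3
    rw [Real.log_mul (by positivity) (by exact_mod_cast hqK.ne'), Real.log_pow] at h4
    push_cast at h4 ⊢
    linarith
  -- the pairs
  set U := (Icc 6 J).biUnion (B Q) with hU
  have hUm : ∀ p ∈ U, ∃ j, 6 ≤ j ∧ j ≤ J ∧ 2 ^ j < p.1 ∧ p.1 ≤ 2 ^ (j + 1) ∧ 2 ^ j < p.2 ∧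
      p.2 ≤ 2 ^ (j + 1) ∧ Nat.Coprime (1 + Q * p.1) (Q * p.2) := by
    intro p hp
    rw [hU, mem_biUnion] at hp
    obtain ⟨j, hj, hp⟩ := hp
    unfold B at hp
    rw [mem_filter, mem_product, mem_Ioc, mem_Ioc] at hp
    rw [mem_Icc] at hj
    exact ⟨j, hj.1, hj.2, hp.1.1.1, hp.1.1.2, hp.1.2.1, hp.1.2.2, hp.2⟩
  have hnorm : ∀ (j : ℕ) (p : ℕ × ℕ), 1 ≤ p.1 → p.1 ≤ 2 ^ (j + 1) → p.2 ≤ 2 ^ (j + 1) →
      nf t c (1 + Q * p.1) (Q * p.2) ≤ K * 4 ^ j := fun j p h0 h1 h2 =>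
    nf_le t c Q j p.1 p.2 ht hQ1 h0 h1 h2
  have hcop : ∀ p : ℕ × ℕ, Nat.Coprime (nf t c (1 + Q * p.1) (Q * p.2)) q := fun p =>
    nf_cop t c q p.1 p.2
  have hroot : ∀ p : ℕ × ℕ, ∃ n : ℕ, p ∈ U → 1 ≤ n ∧ n ≤ (nf t c (1 + Q * p.1) (Q * p.2)) * q ∧
      n ≡ a [MOD q] ∧ (nf t c (1 + Q * p.1) (Q * p.2)) ∣ n ^ 2 + t * n + c ∧
      ((nf t c (1 + Q * p.1) (Q * p.2) : ℕ) : ℤ) ∣ ((1 + Q * p.1 : ℕ) : ℤ) - n * (Q * p.2 : ℕ) := by
    intro p
    by_cases hp : p ∈ U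
    · obtain ⟨j, h1, h2, h3, h4, h5, h6, h7⟩ := hUm p hp
      obtain ⟨n, hn⟩ := root t c q a (1 + Q * p.1) (Q * p.2) hc hq (by omega)
        (Nat.mul_pos hQ1 (by omega)) h7 (hcop p)
      exact ⟨n, fun _ => hn⟩
    · exact ⟨0, fun h => absurd h hp⟩
  choose ν hν using hroot
  set φ : ℕ × ℕ → (Σ _ : ℕ, ℕ) := fun p => ⟨ν p, nf t c (1 + Q * p.1) (Q * p.2)⟩ with hφ
  set S := ((Icc 1 N).filter (fun n => n ≡ a [MOD q])).sigma
    (fun n => Nat.divisors (n ^ 2 + t * n + c)) with hS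
  have hφS : ∀ p ∈ U, φ p ∈ S := by
    intro p hp
    obtain ⟨j, h1, h2, h3, h4, h5, h6, h7⟩ := hUm p hp
    obtain ⟨g1, g2, g3, g4, g5⟩ := hν p hp
    rw [hS, mem_sigma, mem_filter, mem_Icc, Nat.mem_divisors]
    refine ⟨⟨⟨g1, ?_⟩, g3⟩, g4, by omega⟩
    have h8 := hnorm j p (by omega) h4 h6
    have h9 : 4 ^ j ≤ N / (q * K) := by
      refine (Nat.pow_le_pow_right (by norm_num) h2).trans ?_
      apply Nat.pow_log_le_self
      intro h0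
      rw [h0, Nat.log_zero_right] at hJ
      omega
    calc ν p ≤ (nf t c (1 + Q * p.1) (Q * p.2)) * q := g2
      _ ≤ (K * 4 ^ j) * q := Nat.mul_le_mul_right _ h8
      _ = 4 ^ j * (q * K) := by ring
      _ ≤ N := (Nat.le_div_iff_mul_le hqK).1 h9
  have hφinj : Set.InjOn φ (U : Set (ℕ × ℕ)) := by
    intro p hp p' hp' h
    obtain ⟨j, h1, h2, h3, h4, h5, h6, h7⟩ := hUm p hp
    obtain ⟨j', h1', h2', h3', h4', h5', h6', h7'⟩ := hUm p' hp'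
    obtain ⟨g1, g2, g3, g4, g5⟩ := hν p hp
    obtain ⟨g1', g2', g3', g4', g5'⟩ := hν p' hp'
    rw [hφ] at h
    simp only [Sigma.mk.injEq, heq_eq_eq] at h
    obtain ⟨e1, e2⟩ := h
    rw [← e1] at g5'
    obtain ⟨k1, k2⟩ := inj t c (1 + Q * p.1) (Q * p.2) (1 + Q * p'.1) (Q * p'.2) (ν p) hc (by omega)
      (Nat.mul_pos hQ1 (by omega)) (by omega) (Nat.mul_pos hQ1 (by omega)) h7 h7' e2 g5 g5'
    have k3 : Q * p.1 = Q * p'.1 := by omega
    exact Prod.ext (Nat.eq_of_mul_eq_mul_left hQ1 k3) (Nat.eq_of_mul_eq_mul_left hQ1 k2)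
  -- the terms
  have hterm : ∀ p ∈ U, 1 / (3 * (q : ℝ) ^ 2 * (nf t c (1 + Q * p.1) (Q * p.2) : ℕ)) ≤
      1 / ((max (φ p).2 (((φ p).1 ^ 2 + t * (φ p).1 + c) / (φ p).2) : ℕ) : ℝ) := by
    intro p hp
    obtain ⟨j, l1, l2, l3, l4, l5, l6, l7⟩ := hUm p hp
    obtain ⟨g1, g2, g3, g4, g5⟩ := hν p hp
    rw [hφ]
    simp only
    have hcd : c ≤ nf t c (1 + Q * p.1) (Q * p.2) := c_le_nf t c _ _ (Nat.mul_pos hQ1 (by omega))
    have hd1 : 1 ≤ nf t c (1 + Q * p.1) (Q * p.2) := nf_pos t c _ _ (by omega)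
    set d := nf t c (1 + Q * p.1) (Q * p.2) with hd
    apply one_div_le_one_div_of_le
    · have : 1 ≤ max d ((ν p ^ 2 + t * ν p + c) / d) := hd1.trans (le_max_left _ _)
      exact_mod_cast this
    · have h1 : max d ((ν p ^ 2 + t * ν p + c) / d) ≤ 3 * q ^ 2 * d := by
        have hq2 : 1 ≤ q ^ 2 := Nat.one_le_pow _ _ hq
        apply max_le
        · nlinarith
        · apply Nat.div_le_of_le_mul
          exact fv_le t c (ν p) d q ht hcd hd1 hq g2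
      exact_mod_cast h1
  -- the sum
  have hsum : ∑ p ∈ U, 1 / (3 * (q : ℝ) ^ 2 * (nf t c (1 + Q * p.1) (Q * p.2) : ℕ)) ≤
      ∑ n ∈ (Icc 1 N).filter (fun n => n ≡ a [MOD q]), wn (t : ℤ) (c : ℤ) n := by
    unfold wn
    simp only [fv_nat]
    rw [sum_sigma']
    calc _ ≤ ∑ p ∈ U, 1 / ((max (φ p).2 (((φ p).1 ^ 2 + t * (φ p).1 + c) / (φ p).2) : ℕ) : ℝ) :=
          sum_le_sum hterm
      _ = ∑ z ∈ U.image φ, 1 / ((max z.2 ((z.1 ^ 2 + t * z.1 + c) / z.2) : ℕ) : ℝ) :=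
          (sum_image (f := fun z : (Σ _ : ℕ, ℕ) =>
            1 / ((max z.2 ((z.1 ^ 2 + t * z.1 + c) / z.2) : ℕ) : ℝ)) hφinj).symm
      _ ≤ _ := by
          apply sum_le_sum_of_subset_of_nonneg
          · intro z hz
            rw [mem_image] at hz
            obtain ⟨p, hp, rfl⟩ := hz
            exact hφS p hp
          · intro z _ _
            positivity
  refine le_trans ?_ hsum
  -- the blocks
  have hdisj : Set.PairwiseDisjoint ((Icc 6 J : Finset ℕ) : Set ℕ) (B Q) := by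
    intro i _ j _ hij
    rw [Function.onFun, disjoint_left]
    intro p hp hp'
    unfold B at hp hp'
    rw [mem_filter, mem_product, mem_Ioc, mem_Ioc] at hp hp'
    obtain ⟨⟨⟨h1, h2⟩, -⟩, -⟩ := hp
    obtain ⟨⟨⟨h1', h2'⟩, -⟩, -⟩ := hp'
    apply hij
    have h3 : 2 ^ i < 2 ^ (j + 1) := h1.trans_le h2'
    have h4 : 2 ^ j < 2 ^ (i + 1) := h1'.trans_le h2
    have h5 := (Nat.pow_lt_pow_iff_right (by norm_num : 1 < 2)).1 h3
    have h6 := (Nat.pow_lt_pow_iff_right (by norm_num : 1 < 2)).1 h4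
    omega
  rw [hU, sum_biUnion hdisj]
  have hblock : ∀ j ∈ Icc 6 J, 1 / (6 * (q : ℝ) ^ 2 * K) ≤
      ∑ p ∈ B Q j, 1 / (3 * (q : ℝ) ^ 2 * (nf t c (1 + Q * p.1) (Q * p.2) : ℕ)) := by
    intro j hj
    rw [mem_Icc] at hj
    have h1 : ∀ p ∈ B Q j, 1 / (3 * (q : ℝ) ^ 2 * (K * 4 ^ j)) ≤
        1 / (3 * (q : ℝ) ^ 2 * (nf t c (1 + Q * p.1) (Q * p.2) : ℕ)) := by
      intro p hp
      unfold B at hp
      rw [mem_filter, mem_product, mem_Ioc, mem_Ioc] at hp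
      have h2 := hnorm j p (by omega) hp.1.1.2 hp.1.2.2
      have h3 : ((nf t c (1 + Q * p.1) (Q * p.2) : ℕ) : ℝ) ≤ K * 4 ^ j := by exact_mod_cast h2
      apply one_div_le_one_div_of_le
      · have h4 : 1 ≤ nf t c (1 + Q * p.1) (Q * p.2) := nf_pos t c _ _ (by omega)
        have h5 : (1 : ℝ) ≤ ((nf t c (1 + Q * p.1) (Q * p.2) : ℕ) : ℝ) := by exact_mod_cast h4
        positivity
      · exact mul_le_mul_of_nonneg_left h3 (by positivity)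
    have h2 := sum_le_sum h1
    rw [sum_const, nsmul_eq_mul] at h2
    refine le_trans ?_ h2
    have h3 := card_B Q j ⟨q, rfl⟩ hj.1
    calc 1 / (6 * (q : ℝ) ^ 2 * K) = (4 : ℝ) ^ j / 2 * (1 / (3 * (q : ℝ) ^ 2 * (K * 4 ^ j))) := by
          field_simp
          ring
      _ ≤ _ := mul_le_mul_of_nonneg_right h3 (by positivity)
  have hfin := sum_le_sum hblock
  rw [sum_const, nsmul_eq_mul, Nat.card_Icc] at hfin
  refine le_trans ?_ hfin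
  have h5 : (J : ℝ) - 5 ≤ ((J + 1 - 6 : ℕ) : ℝ) := by
    have : J ≤ (J + 1 - 6) + 5 := by omega
    have h6 : (J : ℝ) ≤ ((J + 1 - 6 : ℕ) : ℝ) + 5 := by exact_mod_cast this
    linarith
  have h6 : Real.log N / (2 * Real.log 4) ≤ (J : ℝ) - 5 := by
    rw [div_le_iff₀ (by positivity)]
    nlinarith
  calc 1 / (12 * (q : ℝ) ^ 2 * K * Real.log 4) * Real.log N =
        Real.log N / (2 * Real.log 4) * (1 / (6 * (q : ℝ) ^ 2 * K)) := by
        field_simp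
        ring
    _ ≤ ((J + 1 - 6 : ℕ) : ℝ) * (1 / (6 * (q : ℝ) ^ 2 * K)) :=
        mul_le_mul_of_nonneg_right (h6.trans h5) (by positivity)

lemma sq_inj (t c n n' : ℕ) (h : n ^ 2 + t * n + c = n' ^ 2 + t * n' + c) : n = n' := by
  rcases lt_trichotomy n n' with h1 | h1 | h1
  · have h2 : t * n ≤ t * n' := Nat.mul_le_mul_left _ h1.le
    have h3 : n ^ 2 < n' ^ 2 := Nat.pow_lt_pow_left h1 (by norm_num)
    omega
  · exact h1
  · have h2 : t * n' ≤ t * n := Nat.mul_le_mul_left _ h1.le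
    have h3 : n' ^ 2 < n ^ 2 := Nat.pow_lt_pow_left h1 (by norm_num)
    omega

theorem spq_nat (t c : ℕ) (ht : t ≤ 1) (hc : 1 ≤ c) : S_SPQ (t : ℤ) (c : ℤ) := by
  classical
  intro q a hq
  set Q := 2 * q with hQ
  have hQ1 : 1 ≤ Q := by omega
  set K := 16 * (2 + c) * Q ^ 2 with hK
  have hK1 : 1 ≤ K := by
    have : 1 ≤ Q ^ 2 := Nat.one_le_pow _ _ hQ1
    exact Nat.mul_pos (by omega) this
  have hq2 : 1 ≤ q ^ 2 := Nat.one_le_pow _ _ hq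
  have hT : 0 < 3 * q ^ 2 * K := by positivity
  have hqR : (1 : ℝ) ≤ q := by exact_mod_cast hq
  have hKR : (1 : ℝ) ≤ K := by exact_mod_cast hK1
  refine ⟨1 / (24 * q ^ 2 * K), by positivity, 4 ^ 6 * (3 * q ^ 2 * K), fun X hX => ?_⟩
  set j := Nat.log 4 (X / (3 * q ^ 2 * K)) with hj
  have hX' : 4 ^ 6 ≤ X / (3 * q ^ 2 * K) := (Nat.le_div_iff_mul_le hT).2 hX
  have hj6 : 6 ≤ j := by
    rw [hj]
    exact Nat.le_log_of_pow_le (by norm_num) hX'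
  have hjX : 4 ^ j * (3 * q ^ 2 * K) ≤ X := by
    refine (Nat.le_div_iff_mul_le hT).1 (Nat.pow_log_le_self 4 ?_)
    have : 0 < 4 ^ 6 := by norm_num
    omega
  have hjlow : (X : ℝ) ≤ (4 : ℝ) ^ (j + 1) * (3 * q ^ 2 * K) := by
    have h1 : X / (3 * q ^ 2 * K) < 4 ^ (j + 1) := Nat.lt_pow_succ_log_self (by norm_num) _
    have h2 : X < 4 ^ (j + 1) * (3 * q ^ 2 * K) := (Nat.div_lt_iff_lt_mul hT).1 h1
    exact_mod_cast h2.le
  -- the pairs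
  have hBm : ∀ p ∈ B Q j, 2 ^ j < p.1 ∧ p.1 ≤ 2 ^ (j + 1) ∧ 2 ^ j < p.2 ∧
      p.2 ≤ 2 ^ (j + 1) ∧ Nat.Coprime (1 + Q * p.1) (Q * p.2) := by
    intro p hp
    unfold B at hp
    rw [mem_filter, mem_product, mem_Ioc, mem_Ioc] at hp
    exact ⟨hp.1.1.1, hp.1.1.2, hp.1.2.1, hp.1.2.2, hp.2⟩
  have hnorm : ∀ p : ℕ × ℕ, 1 ≤ p.1 → p.1 ≤ 2 ^ (j + 1) → p.2 ≤ 2 ^ (j + 1) →
      nf t c (1 + Q * p.1) (Q * p.2) ≤ K * 4 ^ j := fun p h0 h1 h2 =>
    nf_le t c Q j p.1 p.2 ht hQ1 h0 h1 h2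
  have hcop : ∀ p : ℕ × ℕ, Nat.Coprime (nf t c (1 + Q * p.1) (Q * p.2)) q := fun p =>
    nf_cop t c q p.1 p.2
  have hroot : ∀ p : ℕ × ℕ, ∃ n : ℕ, p ∈ B Q j → 1 ≤ n ∧
      n ≤ (nf t c (1 + Q * p.1) (Q * p.2)) * q ∧
      n ≡ a [MOD q] ∧ (nf t c (1 + Q * p.1) (Q * p.2)) ∣ n ^ 2 + t * n + c ∧
      ((nf t c (1 + Q * p.1) (Q * p.2) : ℕ) : ℤ) ∣ ((1 + Q * p.1 : ℕ) : ℤ) - n * (Q * p.2 : ℕ) := by
    intro p
    by_cases hp : p ∈ B Q j
    · obtain ⟨h3, h4, h5, h6, h7⟩ := hBm p hp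
      obtain ⟨n, hn⟩ := root t c q a (1 + Q * p.1) (Q * p.2) hc hq (by omega)
        (Nat.mul_pos hQ1 (by omega)) h7 (hcop p)
      exact ⟨n, fun _ => hn⟩
    · exact ⟨0, fun h => absurd h hp⟩
  choose ν hν using hroot
  obtain ⟨D, hD⟩ : ∃ D : ℕ × ℕ → ℕ, ∀ p, D p = nf t c (1 + Q * p.1) (Q * p.2) :=
    ⟨fun p => nf t c (1 + Q * p.1) (Q * p.2), fun _ => rfl⟩
  have hD1 : ∀ p, 1 ≤ D p := by
    intro p
    rw [hD]
    exact nf_pos t c _ _ (by omega)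
  have hmul : ∀ p ∈ B Q j, D p * ((ν p ^ 2 + t * ν p + c) / D p) = ν p ^ 2 + t * ν p + c := by
    intro p hp
    have h := (hν p hp).2.2.2.1
    rw [← hD] at h
    exact Nat.mul_div_cancel' h
  have hcard : (B Q j).card ≤
      ((SP (t : ℤ) (c : ℤ) X).filter (fun p => ∃ n : ℕ, 0 < 2 * (n : ℤ) + (t : ℤ) ∧
        (p.1 * p.2 : ℤ) = (n : ℤ) ^ 2 + (t : ℤ) * n + (c : ℤ) ∧ n ≡ a [MOD q])).card := by
    refine card_le_card_of_injOn (fun p => (D p, (ν p ^ 2 + t * ν p + c) / D p)) ?_ ?_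
    · intro p hp
      have hp' : p ∈ B Q j := hp
      obtain ⟨h3, h4, h5, h6, h7⟩ := hBm p hp'
      obtain ⟨g1, g2, g3, g4, g5⟩ := hν p hp'
      rw [← hD] at g2
      have h8 : D p ≤ K * 4 ^ j := by rw [hD]; exact hnorm p (by omega) h4 h6
      have h9 : D p ≤ X := by
        refine h8.trans (le_trans ?_ hjX)
        calc K * 4 ^ j = 4 ^ j * (1 * K) := by ring
          _ ≤ 4 ^ j * (3 * q ^ 2 * K) :=
            Nat.mul_le_mul_left _ (Nat.mul_le_mul_right _ (by omega))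
      have hcd : c ≤ D p := by
        rw [hD]
        exact c_le_nf t c _ _ (Nat.mul_pos hQ1 (by omega))
      have h10 : (ν p ^ 2 + t * ν p + c) / D p ≤ X := by
        have h11 : (ν p ^ 2 + t * ν p + c) / D p ≤ 3 * q ^ 2 * D p := by
          apply Nat.div_le_of_le_mul
          exact fv_le t c (ν p) (D p) q ht hcd (hD1 p) hq g2
        refine h11.trans (le_trans ?_ hjX)
        calc 3 * q ^ 2 * D p ≤ 3 * q ^ 2 * (K * 4 ^ j) := Nat.mul_le_mul_left _ h8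
          _ = 4 ^ j * (3 * q ^ 2 * K) := by ring
      have h12 : 1 ≤ (ν p ^ 2 + t * ν p + c) / D p := by
        by_contra hcc
        have h0 : (ν p ^ 2 + t * ν p + c) / D p = 0 := Nat.lt_one_iff.1 (not_le.1 hcc)
        have := hmul p hp'
        rw [h0, mul_zero] at this
        omega
      have hm : ((D p : ℤ) * ((((ν p ^ 2 + t * ν p + c) / D p : ℕ)) : ℤ)) =
          (ν p : ℤ) ^ 2 + (t : ℤ) * (ν p) + (c : ℤ) := by
        have := hmul p hp'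
        exact_mod_cast this
      have hpos : 0 < 2 * (ν p : ℤ) + (t : ℤ) := by omega
      rw [mem_coe, mem_filter]
      refine ⟨?_, ν p, hpos, hm, g3⟩
      unfold SP
      rw [mem_filter, mem_product, mem_Icc, mem_Icc]
      exact ⟨⟨⟨hD1 p, h9⟩, h12, h10⟩, ν p, hpos, hm⟩
    · intro p hp p' hp' h
      have hp1 : p ∈ B Q j := hp
      have hp1' : p' ∈ B Q j := hp'
      obtain ⟨h3, h4, h5, h6, h7⟩ := hBm p hp1
      obtain ⟨h3', h4', h5', h6', h7'⟩ := hBm p' hp1'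
      obtain ⟨g1, g2, g3, g4, g5⟩ := hν p hp1
      obtain ⟨g1', g2', g3', g4', g5'⟩ := hν p' hp1'
      simp only [Prod.mk.injEq] at h
      obtain ⟨e1, e2⟩ := h
      have e4 : ν p = ν p' := by
        have k1 := hmul p hp1
        have k2 := hmul p' hp1'
        rw [e2, e1] at k1
        exact sq_inj t c _ _ (k1.symm.trans k2)
      rw [← e4] at g5'
      rw [hD, hD] at e1
      obtain ⟨k1, k2⟩ := inj t c (1 + Q * p.1) (Q * p.2) (1 + Q * p'.1) (Q * p'.2) (ν p) hc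
        (by omega) (Nat.mul_pos hQ1 (by omega)) (by omega) (Nat.mul_pos hQ1 (by omega)) h7 h7' e1
        g5 g5'
      have k3 : Q * p.1 = Q * p'.1 := by omega
      exact Prod.ext (Nat.eq_of_mul_eq_mul_left hQ1 k3) (Nat.eq_of_mul_eq_mul_left hQ1 k2)
  have hcB := card_B Q j ⟨q, rfl⟩ hj6
  have h1 : ((B Q j).card : ℝ) ≤
      (((SP (t : ℤ) (c : ℤ) X).filter (fun p => ∃ n : ℕ, 0 < 2 * (n : ℤ) + (t : ℤ) ∧
        (p.1 * p.2 : ℤ) = (n : ℤ) ^ 2 + (t : ℤ) * n + (c : ℤ) ∧ n ≡ a [MOD q])).card : ℝ) := by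
    exact_mod_cast hcard
  refine le_trans ?_ (hcB.trans h1)
  rw [one_div_mul_eq_div, div_le_iff₀ (by positivity)]
  refine hjlow.trans (le_of_eq ?_)
  rw [pow_succ]
  ring

/-- `t` and `c` are natural numbers -/
lemma nat_tc {t c : ℤ} {f : ℕ} {χ : DirichletCharacter ℂ f} (hF : Fd t c f χ) :
    ∃ t' c' : ℕ, t = t' ∧ c = c' ∧ t' ≤ 1 ∧ 1 ≤ c' := by
  have h1 := hF.disc
  have h2 := hF.three
  rcases hF.tt with h | h
  · refine ⟨0, c.toNat, by simpa using h, ?_, by omega, ?_⟩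
    · subst h
      omega
    · subst h
      omega
  · refine ⟨1, c.toNat, by simpa using h, ?_, by omega, ?_⟩
    · subst h
      omega
    · subst h
      omega

/-- SLOWQ: lower bound for the weights in a residue class -/
theorem slowq {t c : ℤ} {f : ℕ} {χ : DirichletCharacter ℂ f} (hF : Fd t c f χ) : S_SLOWQ t c := by
  obtain ⟨t', c', rfl, rfl, h1, h2⟩ := nat_tc hF
  exact slowq_nat t' c' h1 h2

/-- SPQ: lower bound for the number of pairs in a residue class -/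
theorem spq {t c : ℤ} {f : ℕ} {χ : DirichletCharacter ℂ f} (hF : Fd t c f χ) : S_SPQ t c := by
  obtain ⟨t', c', rfl, rfl, h1, h2⟩ := nat_tc hF
  exact spq_nat t' c' h1 h2

end W885.EG
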